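import Pool.Agent.Y142.ZI.Stm2
import Pool.Agent.Y142.ZI.So
import Pool.Agent.Y142.ZO.Alg

set_option autoImplicit false

open Matrix Polynomial Filter Topology NumberField IsDedekindDomain
open Pool.Agent.Y142.ZO Pool.Agent.Y142.ZI

namespace Pool.Agent.Q295.OI.NT

/-- a tangent vector maps `W` to `W'` -/
theorem tangent_mem (ℓ : ℕ) [Fact ℓ.Prime] {N : ℕ} {G : Type} [Group G]
    [TopologicalSpace G] [IsTopologicalGroup G] [CompactSpace G]
    (ρ : G →* Matrix (Fin N) (Fin N) ℚ_[ℓ]) (hρ : Continuous ρ)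
    (U : Subgroup G) (hU : IsOpen (U : Set G)) (W' W : Submodule ℚ_[ℓ] (Fin N → ℚ_[ℓ]))
    (h : ∀ σ ∈ U, ∀ w ∈ W, ρ σ *ᵥ w - w ∈ W')
    (X : Matrix (Fin N) (Fin N) ℚ_[ℓ]) (hX : IsTangent ℓ ρ X) (w : Fin N → ℚ_[ℓ]) (hw : w ∈ W) :
    X *ᵥ w ∈ W' := by
  obtain ⟨σ, hσ⟩ := hX
  have hl0 : (ℓ : ℚ_[ℓ]) ≠ 0 := by exact_mod_cast (Fact.out : ℓ.Prime).ne_zero
  -- `ρ (σ n) → 1`
  have h1 : Tendsto (fun n : ℕ => ρ (σ n)) atTop (𝓝 1) := by
    have h2 : Tendsto (fun n : ℕ => (ℓ : ℚ_[ℓ]) ^ n) atTop (𝓝 0) :=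
      tendsto_pow_atTop_nhds_zero_of_norm_lt_one (Padic.norm_p_lt_one)
    have h3 := h2.smul hσ
    rw [zero_smul] at h3
    have h4 : Tendsto (fun n : ℕ => ρ (σ n) - 1) atTop (𝓝 0) := by
      refine h3.congr fun n => ?_
      rw [smul_smul, mul_inv_cancel₀ (pow_ne_zero n hl0), one_smul]
    have h5 := h4.add_const 1
    rw [zero_add] at h5
    exact h5.congr fun n => by rw [sub_add_cancel]
  obtain ⟨s, hs⟩ := exists_clusterPt_of_compactSpace (Filter.map σ atTop)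
  have hs' : MapClusterPt s atTop σ := hs
  have hρs : ρ s = 1 := by
    have h2 : MapClusterPt (ρ s) atTop (ρ ∘ σ) := hs'.tendsto_comp hρ.continuousAt
    have h3 : ClusterPt (ρ s) (𝓝 1) := ClusterPt.mono h2 h1
    exact eq_of_nhds_neBot h3
  have hρs' : ρ s⁻¹ = 1 := by
    have h2 : ρ (s⁻¹ * s) = ρ s⁻¹ * ρ s := map_mul ρ _ _
    rw [inv_mul_cancel, map_one, hρs, mul_one] at h2
    exact h2.symm
  have hfr : ∃ᶠ n in atTop, σ n * s⁻¹ ∈ U := by
    refine hs'.frequently (p := fun g => g * s⁻¹ ∈ U) ?_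
    have hcont : Continuous fun g : G => g * s⁻¹ := continuous_mul_const _
    refine (hU.preimage hcont).mem_nhds ?_
    show s * s⁻¹ ∈ U
    rw [mul_inv_cancel]
    exact U.one_mem
  have hcl : IsClosed (W' : Set (Fin N → ℚ_[ℓ])) := Submodule.closed_of_finiteDimensional W'
  have hlim : Tendsto (fun n : ℕ => (((ℓ : ℚ_[ℓ]) ^ n)⁻¹ • (ρ (σ n) - 1)) *ᵥ w) atTop
      (𝓝 (X *ᵥ w)) := by
    have hc : Continuous fun M : Matrix (Fin N) (Fin N) ℚ_[ℓ] => M *ᵥ w :=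
      continuous_id.matrix_mulVec continuous_const
    exact (hc.tendsto X).comp hσ
  refine hcl.mem_of_frequently_of_tendsto ?_ hlim
  refine hfr.mono fun n hn => ?_
  have h2 := h _ hn w hw
  rw [map_mul, hρs', mul_one] at h2
  rw [smul_mulVec, sub_mulVec, one_mulVec]
  exact W'.smul_mem _ h2

theorem t : Pool.Agent.Y142.ZI.S_NT := by
  intro ℓ _ N hN G _ _ _ _ ρ hρ B hB hdet hfull ⟨U, W', W, hU, hlt, h⟩
  have hkey : ∀ w ∈ W, w ∉ W' → ∀ u, bil B u w = 0 → u ∈ W' := by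
    intro w hw hw' u hu
    have hw0 : w ≠ 0 := fun h0 => hw' (h0 ▸ W'.zero_mem)
    -- choose `v` with `bil B v w = 1`
    obtain ⟨v, hv⟩ : ∃ v, bil B v w ≠ 0 := by
      by_contra hcon
      push Not at hcon
      have h2 : B *ᵥ w = 0 := by
        funext i
        have := hcon (Pi.single i 1)
        unfold bil at this
        rw [single_one_dotProduct] at this
        exact this
      have h3 := Matrix.eq_zero_of_mulVec_eq_zero hdet h2
      exact hw0 h3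
    have h2 := tangent_mem ℓ ρ hρ U hU W' W h (wedge B v u)
      (hfull _ (skew_wedge hB v u)) w hw
    rw [wedge_mulVec, hu, zero_smul, sub_zero] at h2
    have h3 := W'.smul_mem (bil B v w)⁻¹ h2
    rwa [smul_smul, inv_mul_cancel₀ hv, one_smul] at h3
  obtain ⟨w, hw, hw'⟩ := SetLike.exists_of_lt hlt
  -- a nonzero vector orthogonal to `w`
  obtain ⟨y, hy0, hyw⟩ : ∃ y : Fin N → ℚ_[ℓ], y ≠ 0 ∧ bil B y w = 0 := by
    let φ : (Fin N → ℚ_[ℓ]) →ₗ[ℚ_[ℓ]] ℚ_[ℓ] :=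
      { toFun := fun y => bil B y w
        map_add' := fun a b => bil_add_left a b w
        map_smul' := fun c a => bil_smul_left c a w }
    have h2 : LinearMap.ker φ ≠ ⊥ := by
      apply LinearMap.ker_ne_bot_of_finrank_lt
      simp
      omega
    obtain ⟨y, hy, hy0⟩ := (Submodule.ne_bot_iff _).mp h2
    exact ⟨y, hy0, hy⟩
  have hyW' : y ∈ W' := hkey w hw hw' y hyw
  have hyW : y ∈ W := hlt.le hyW'
  have hwy : w + y ∈ W := W.add_mem hw hyW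
  have hwy' : w + y ∉ W' := fun h2 => hw' (by
    have := W'.sub_mem h2 hyW'
    rwa [add_sub_cancel_right] at this)
  -- functionals
  obtain ⟨f₁, hf₁w, hf₁W⟩ := Submodule.exists_le_ker_of_notMem hw'
  obtain ⟨f₂, hf₂⟩ : ∃ f₂ : (Fin N → ℚ_[ℓ]) →ₗ[ℚ_[ℓ]] ℚ_[ℓ], f₂ y = 1 := by
    obtain ⟨i, hi⟩ := Function.ne_iff.mp hy0
    refine ⟨(y i)⁻¹ • LinearMap.proj i, ?_⟩
    simp only [LinearMap.smul_apply, LinearMap.proj_apply, smul_eq_mul]
    exact inv_mul_cancel₀ hi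
  have hf₁y : f₁ y = 0 := hf₁W hyW'
  let f : (Fin N → ℚ_[ℓ]) →ₗ[ℚ_[ℓ]] ℚ_[ℓ] := ((1 + f₂ w) * (f₁ w)⁻¹) • f₁ - f₂
  have hfw : f w = 1 := by
    show (1 + f₂ w) * (f₁ w)⁻¹ * f₁ w - f₂ w = 1
    rw [mul_assoc, inv_mul_cancel₀ hf₁w]
    ring
  have hfy : f y = -1 := by
    show (1 + f₂ w) * (f₁ w)⁻¹ * f₁ y - f₂ y = -1
    rw [hf₁y, hf₂]
    ring
  -- the representing vector
  obtain ⟨z, hz⟩ : ∃ z, ∀ x, bil B z x = f x := by
    refine ⟨B⁻¹ *ᵥ (fun i => f (fun j => if i = j then 1 else 0)), fun x => ?_⟩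
    have hx : f x = (fun i => f (fun j => if i = j then 1 else 0)) ⬝ᵥ x := by
      rw [LinearMap.pi_apply_eq_sum_univ f x]
      unfold dotProduct
      exact Finset.sum_congr rfl fun i _ => by rw [smul_eq_mul, mul_comm]
    rw [bil_symm hB]
    unfold bil
    rw [mulVec_mulVec, Matrix.mul_nonsing_inv _ (Ne.isUnit hdet), one_mulVec, hx, dotProduct_comm]
  have hzw : bil B z w = 1 := by rw [hz, hfw]
  have hzwy : bil B z (w + y) = 0 := by rw [hz, map_add, hfw, hfy]; ring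
  have hzW : z ∈ W' := hkey (w + y) hwy hwy' z hzwy
  -- `w ∈ W'`
  have h5 : w - bil B w w • z ∈ W' := by
    apply hkey w hw hw'
    rw [bil_sub_left, bil_smul_left, hzw]
    ring
  have h6 := W'.add_mem h5 (W'.smul_mem (bil B w w) hzW)
  rw [sub_add_cancel] at h6
  exact hw' h6

end Pool.Agent.Q295.OI.NT
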